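import Mathlib

/-!
# Paths covering an independent set and its neighbourhood

`MP_05e181_co`, Q1: for every `k ≥ 1`, every `k`-connected nontraceable graph `G` has an independent
set `S` of `k + 1` vertices and a path which contains `S` and all neighbours of vertices of `S`.

The proof.  Let `P` be a longest path of `G`, let `b` be one of its ends and `W` its vertex set, and
let `U` be the set of all vertices `u` for which `G[W]` has a Hamiltonian path from `u` to `b`.  All
neighbours of `U ∪ {b}` are in `W`, and `b` has no neighbour in `U`.  As `G` is `k`-connected and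
`W ≠ V(G)`, every nonempty `K ⊆ U` satisfies `|N(K) \ K| ≥ k`.  So it is enough to prove

`core`: if every nonempty `K ⊆ U` satisfies `|(N(K) ∩ W) \ K| ≥ k` then `U` contains an independent
set of size `k`.

This is proved by induction on `|W|`.  Choose a Hamiltonian path `R z M` of `G[W]` ending at `b`
with `R ⊆ U`, `z ∉ U` and `|R|` minimal.  Let `A ⊆ R` be the set of the starting points of the
Hamiltonian paths of `G[R ∪ {z}]` ending at `z`, let `X = N(A) ∩ M` and let `X⁻` be the set of the
predecessors of the vertices of `X` on `z M`.  By rotation `X⁻ ⊆ U`.  If `y, y' ∈ X⁻` were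
adjacent, or `y ∈ X⁻` and `a ∈ A` were adjacent, then a part `a … a'` of a Hamiltonian path of
`G[R ∪ {z}]` could be moved to `M`, which gives a Hamiltonian path of `G[W]` ending at `b` with a
shorter initial part before `z`.  So `X⁻ ∪ I` is independent for every independent `I ⊆ A`, and
the induction hypothesis for `R ∪ {z}`, `z`, `k - |X|` gives the claim.
-/

set_option autoImplicit false

namespace Pool.Agent.Results.MP_05e181_co.SaturatedEnds

open Finset

variable {V : Type*}

/-- `L` is a Hamiltonian path of `G[W]` which ends at `b`. -/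
def HP (G : SimpleGraph V) (W : Finset V) (b : V) (L : List V) : Prop :=
  L.Nodup ∧ L.IsChain G.Adj ∧ (∀ v, v ∈ L ↔ v ∈ W) ∧ L.getLast? = some b

/-- `a ≠ b` is the start of a Hamiltonian path of `G[W]` which ends at `b`. -/
def Start (G : SimpleGraph V) (W : Finset V) (b a : V) : Prop :=
  a ≠ b ∧ ∃ P, HP G W b (a :: P)

theorem HP.perm {G : SimpleGraph V} {W : Finset V} {b : V} {L L' : List V} (h : HP G W b L)
    (hp : L.Perm L') (hc : L'.IsChain G.Adj) (hl : L'.getLast? = some b) : HP G W b L' :=
  ⟨hp.nodup_iff.1 h.1, hc, fun v => by rw [← hp.mem_iff]; exact h.2.2.1 v, hl⟩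

theorem HP.start {G : SimpleGraph V} {W : Finset V} {b a : V} {L : List V}
    (h : HP G W b (a :: L)) (hL : L ≠ []) : Start G W b a := by
  refine ⟨?_, L, h⟩
  rintro rfl
  obtain ⟨h1, -, -, h4⟩ := h
  rw [List.getLast?_cons_of_ne_nil hL] at h4
  exact (List.nodup_cons.1 h1).1 (List.mem_of_getLast? h4)

/-- first element of a list which does not satisfy `p` -/
theorem split_first (p : V → Prop) : ∀ L : List V, (∃ x ∈ L, ¬ p x) →
    ∃ R z M, L = R ++ z :: M ∧ (∀ r ∈ R, p r) ∧ ¬ p z := by
  intro L
  induction L with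
  | nil => rintro ⟨x, hx, -⟩; simp at hx
  | cons a L ih =>
    rintro ⟨x, hx, hpx⟩
    by_cases ha : p a
    · have : ∃ x ∈ L, ¬ p x := by
        refine ⟨x, ?_, hpx⟩
        rcases List.mem_cons.1 hx with rfl | h
        · exact absurd ha hpx
        · exact h
      obtain ⟨R, z, M, h1, h2, h3⟩ := ih this
      refine ⟨a :: R, z, M, by rw [h1]; rfl, ?_, h3⟩
      intro r hr
      rcases List.mem_cons.1 hr with rfl | h
      · exact ha
      · exact h2 r h
    · exact ⟨[], a, L, rfl, by simp, ha⟩

/-- two splittings of a list without repetition -/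
theorem split_two {L A B A' B' : List V} {y x y' x' : V}
    (h : L = A ++ y :: x :: B) (h' : L = A' ++ y' :: x' :: B') :
    (y = y' ∧ x = x') ∨
    (∃ E, L = A ++ y :: (E ++ y' :: x' :: B') ∧ (E ++ [y']).head? = some x) ∨
    (∃ E, L = A' ++ y' :: (E ++ y :: x :: B) ∧ (E ++ [y]).head? = some x') := by
  have key := h.symm.trans h'
  rcases List.append_eq_append_iff.1 key with ⟨as, h1, h2⟩ | ⟨as, h1, h2⟩
  · -- A' = A ++ as, y :: x :: B = as ++ y' :: x' :: B'
    cases as with
    | nil =>
      left
      simp only [List.nil_append, List.cons.injEq] at h2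
      exact ⟨h2.1, h2.2.1⟩
    | cons c E =>
      right; left
      simp only [List.cons_append, List.cons.injEq] at h2
      obtain ⟨rfl, h2⟩ := h2
      refine ⟨E, ?_, ?_⟩
      · rw [← h2]; exact h
      · cases E with
        | nil => simp only [List.nil_append, List.cons.injEq] at h2; simp [h2.1]
        | cons e E => simp only [List.cons_append, List.cons.injEq] at h2; simp [h2.1]
  · cases as with
    | nil =>
      left
      simp only [List.nil_append, List.cons.injEq] at h2
      exact ⟨h2.1.symm, h2.2.1.symm⟩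
    | cons c E =>
      right; right
      simp only [List.cons_append, List.cons.injEq] at h2
      obtain ⟨rfl, h2⟩ := h2
      refine ⟨E, ?_, ?_⟩
      · rw [← h2]; exact h'
      · cases E with
        | nil => simp only [List.nil_append, List.cons.injEq] at h2; simp [h2.1]
        | cons e E => simp only [List.cons_append, List.cons.injEq] at h2; simp [h2.1]

/-- moving `P1` between `y` and `x'` and reversing `Mid` -/
theorem move_rev {G : SimpleGraph V} {W : Finset V} {b a1 a2 y x y' x' : V}
    {P1 P2 A Mid B : List V}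
    (h : HP G W b (P1 ++ (P2 ++ ((A ++ [y]) ++ (Mid ++ (x' :: B))))))
    (h1 : P1.head? = some a1) (h2 : P1.getLast? = some a2)
    (h3 : Mid.head? = some x) (h4 : Mid.getLast? = some y')
    (e1 : G.Adj y y') (e2 : G.Adj a1 x) (e3 : G.Adj a2 x') :
    HP G W b (P2 ++ ((A ++ [y]) ++ (Mid.reverse ++ (P1 ++ (x' :: B))))) := by
  have hc := h.2.1
  rw [List.isChain_append] at hc
  obtain ⟨c1, hc, -⟩ := hc
  rw [← List.append_assoc, List.isChain_append] at hc
  obtain ⟨c2, hc, -⟩ := hc
  rw [List.isChain_append] at hc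
  obtain ⟨c3, c4, -⟩ := hc
  refine h.perm ?_ ?_ ?_
  · classical
    rw [List.perm_iff_count]
    intro v
    simp only [List.count_append, List.count_reverse]
    ring
  · rw [← List.append_assoc, List.isChain_append]
    refine ⟨c2, ?_, ?_⟩
    · rw [List.isChain_append]
      refine ⟨?_, ?_, ?_⟩
      · rw [List.isChain_reverse]
        exact c3.imp fun _ _ h => h.symm
      · rw [List.isChain_append]
        refine ⟨c1, c4, ?_⟩
        intro u hu v hv
        rw [h2] at hu
        simp only [Option.mem_def, Option.some.injEq, List.head?_cons] at hu hv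
        rw [← hu, ← hv]; exact e3
      · intro u hu v hv
        rw [List.getLast?_reverse, h3] at hu
        rw [List.head?_append, h1] at hv
        simp only [Option.mem_def, Option.some.injEq, Option.some_or] at hu hv
        rw [← hu, ← hv]; exact e2.symm
    · intro u hu v hv
      have hu' : u = y := by
        simp [List.getLast?_append] at hu
        exact hu.symm
      rw [List.head?_append, List.head?_reverse, h4] at hv
      simp only [Option.mem_def, Option.some.injEq, Option.some_or] at hv
      rw [hu', ← hv]; exact e1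
  · have := h.2.2.2
    simp only [List.getLast?_append] at this ⊢
    simpa [List.getLast?_cons] using this

/-- moving `P1` between `y` and `x'` -/
theorem move_ins {G : SimpleGraph V} {W : Finset V} {b a1 a2 y x' : V}
    {P1 P2 A B : List V}
    (h : HP G W b (P1 ++ (P2 ++ ((A ++ [y]) ++ (x' :: B)))))
    (h1 : P1.head? = some a1) (h2 : P1.getLast? = some a2)
    (e1 : G.Adj y a1) (e3 : G.Adj a2 x') :
    HP G W b (P2 ++ ((A ++ [y]) ++ (P1 ++ (x' :: B)))) := by
  have hc := h.2.1
  rw [List.isChain_append] at hc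
  obtain ⟨c1, hc, -⟩ := hc
  rw [← List.append_assoc, List.isChain_append] at hc
  obtain ⟨c2, c4, -⟩ := hc
  refine h.perm ?_ ?_ ?_
  · classical
    rw [List.perm_iff_count]
    intro v
    simp only [List.count_append]
    ring
  · rw [← List.append_assoc, List.isChain_append]
    refine ⟨c2, ?_, ?_⟩
    · rw [List.isChain_append]
      refine ⟨c1, c4, ?_⟩
      intro u hu v hv
      rw [h2] at hu
      simp only [Option.mem_def, Option.some.injEq, List.head?_cons] at hu hv
      rw [← hu, ← hv]; exact e3
    · intro u hu v hv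
      have hu' : u = y := by
        simp [List.getLast?_append] at hu
        exact hu.symm
      rw [List.head?_append, h1] at hv
      simp only [Option.mem_def, Option.some.injEq, Option.some_or] at hv
      rw [hu', ← hv]; exact e1
  · have := h.2.2.2
    simp only [List.getLast?_append] at this ⊢
    simpa [List.getLast?_cons] using this

/-- rotation -/
theorem rotate {G : SimpleGraph V} {W : Finset V} {b a y x : V} {P A B : List V}
    (h : HP G W b (P ++ ((A ++ [y]) ++ (x :: B)))) (h1 : P.head? = some a) (e : G.Adj a x) :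
    Start G W b y := by
  have hc := h.2.1
  rw [← List.append_assoc, List.isChain_append] at hc
  obtain ⟨c1, c2, -⟩ := hc
  have h' : HP G W b ((P ++ (A ++ [y])).reverse ++ (x :: B)) := by
    refine h.perm ?_ ?_ ?_
    · classical
      rw [List.perm_iff_count]
      intro v
      simp only [List.count_append, List.count_reverse]
      ring
    · rw [List.isChain_append]
      refine ⟨?_, c2, ?_⟩
      · rw [List.isChain_reverse]
        exact c1.imp fun _ _ h => h.symm
      · intro u hu v hv
        rw [List.getLast?_reverse, List.head?_append, h1] at hu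
        simp only [Option.mem_def, Option.some.injEq, Option.some_or, List.head?_cons] at hu hv
        rw [← hu, ← hv]; exact e
    · have := h.2.2.2
      simp only [List.getLast?_append] at this ⊢
      simpa [List.getLast?_cons] using this
  have h2 : (P ++ (A ++ [y])).reverse ++ (x :: B) = y :: ((P ++ A).reverse ++ (x :: B)) := by
    simp
  rw [h2] at h'
  exact h'.start (by simp)

theorem HP.split {G : SimpleGraph V} {W : Finset V} {b : V} {L : List V} (h : HP G W b L) :
    ∃ L', L = L' ++ [b] := List.getLast?_eq_some_iff.1 h.2.2.2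

open Classical in
theorem core (G : SimpleGraph V) : ∀ n : ℕ, ∀ (W : Finset V) (b : V) (k : ℕ), W.card = n →
    (∃ a, Start G W b a) →
    (∀ K : Finset V, K.Nonempty → (∀ a ∈ K, Start G W b a) →
      k ≤ (W.filter fun v => v ∉ K ∧ ∃ u ∈ K, G.Adj u v).card) →
    ∃ I : Finset V, (∀ a ∈ I, Start G W b a) ∧ (∀ a ∈ I, ∀ c ∈ I, ¬ G.Adj a c) ∧ k ≤ I.card := by
  intro n
  induction n using Nat.strong_induction_on with
  | _ n ih =>
  intro W b k hW hne hK
  -- a decomposition with the shortest initial part
  have hex : ∃ m : ℕ, ∃ R z M, R.length = m ∧ (∀ r ∈ R, Start G W b r) ∧ ¬ Start G W b z ∧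
      HP G W b (R ++ z :: M) := by
    obtain ⟨a, hab, P, hP⟩ := hne
    obtain ⟨R, z, M, h1, h2, h3⟩ := split_first (Start G W b) (a :: P)
      ⟨b, List.mem_of_getLast? hP.2.2.2, fun h => h.1 rfl⟩
    exact ⟨R.length, R, z, M, rfl, h2, h3, h1 ▸ hP⟩
  obtain ⟨R, z, M, hRm, hRU, hz, hL⟩ := Nat.find_spec hex
  set m := Nat.find hex with hm
  have hmin : ∀ R' z' M', (∀ r ∈ R', Start G W b r) → ¬ Start G W b z' →
      HP G W b (R' ++ z' :: M') → m ≤ R'.length := by
    intro R' z' M' h1 h2 h3
    exact Nat.find_min' hex ⟨R', z', M', rfl, h1, h2, h3⟩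
  have hnd := hL.1
  rw [List.nodup_append] at hnd
  obtain ⟨hRn, hTn, hdis⟩ := hnd
  have hzR : z ∉ R := fun h => hdis z h z (by simp) rfl
  have hWlen : W.card = R.length + (M.length + 1) := by
    have : W = (R ++ z :: M).toFinset := by
      ext v; rw [List.mem_toFinset]; exact (hL.2.2.1 v).symm
    rw [this, List.toFinset_card_of_nodup hL.1]
    simp
  rcases List.eq_nil_or_concat M with rfl | hMne
  · -- trivial case
    have hzb : z = b := by
      have := hL.2.2.2
      simpa [List.getLast?_append] using this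
    subst hzb
    obtain ⟨a, ha⟩ := hne
    have haR : a ∈ R := by
      obtain ⟨hab, P, hP⟩ := ha
      have h1 : a ∈ W := (hP.2.2.1 a).1 (by simp)
      have h2 := (hL.2.2.1 a).2 h1
      rcases List.mem_append.1 h2 with h | h
      · exact h
      · simp at h; exact absurd h hab
    have h1 := hK R.toFinset ⟨a, by simpa using haR⟩ (by simpa using hRU)
    have h2 : (W.filter fun v => v ∉ R.toFinset ∧ ∃ u ∈ R.toFinset, G.Adj u v) ⊆ {z} := by
      intro v hv
      rw [mem_filter] at hv
      have h3 := (hL.2.2.1 v).2 hv.1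
      rcases List.mem_append.1 h3 with h | h
      · exact absurd (List.mem_toFinset.2 h) hv.2.1
      · simpa using h
    have h3 := card_le_card h2
    rw [card_singleton] at h3
    refine ⟨{a}, ?_, ?_, ?_⟩
    · intro c hc; rw [mem_singleton] at hc; rw [hc]; exact ha
    · intro c hc d hd; rw [mem_singleton] at hc hd; rw [hc, hd]; exact G.irrefl
    · rw [card_singleton]; omega
  have hMne : M ≠ [] := by
    obtain ⟨L', x, rfl⟩ := hMne; simp
  -- the initial part
  have hRne : R ≠ [] := by
    rintro rfl
    exact hz (HP.start (L := M) (by simpa using hL) hMne)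
  set W1 : Finset V := insert z R.toFinset with hW1
  have hc0 := hL.2.1
  have hpre : HP G W1 z (R ++ [z]) := by
    refine ⟨?_, ?_, ?_, by simp⟩
    · rw [List.nodup_append]
      refine ⟨hRn, by simp, ?_⟩
      intro u hu v hv
      rw [List.mem_singleton] at hv
      rw [hv]
      rintro rfl
      exact hzR hu
    · have : R ++ z :: M = (R ++ [z]) ++ M := by simp
      rw [this, List.isChain_append] at hc0
      exact hc0.1
    · intro v; simp [hW1, or_comm]
  -- every start of `W1` gives a Hamiltonian path of `W` through the same tail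
  have hA : ∀ a, Start G W1 z a → ∃ P : List V, P.head? = some a ∧ HP G W1 z (P ++ [z]) ∧
      (∀ v, v ∈ P ↔ v ∈ R) ∧ P.length = m ∧ HP G W b (P ++ z :: M) := by
    rintro a ⟨haz, Q, hQ⟩
    obtain ⟨P, hP⟩ := hQ.split
    have hh : P.head? = some a := by
      cases P with
      | nil => simp only [List.nil_append, List.cons.injEq] at hP; exact absurd hP.1 haz
      | cons c P => simp only [List.cons_append, List.cons.injEq] at hP; simp [hP.1]
    rw [hP] at hQ
    have hPn := hQ.1
    rw [List.nodup_append] at hPn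
    obtain ⟨hPn, -, hPd⟩ := hPn
    have hmem : ∀ v, v ∈ P ↔ v ∈ R := by
      intro v
      have h1 := hQ.2.2.1 v
      have h2 := hpre.2.2.1 v
      rw [← h2, List.mem_append, List.mem_append, List.mem_singleton] at h1
      by_cases hvz : v = z
      · subst hvz
        constructor
        · intro h; exact absurd rfl (hPd v h v (by simp))
        · intro h; exact absurd h hzR
      · simpa [hvz] using h1
    have hperm : P.Perm R := (List.perm_ext_iff_of_nodup hPn hRn).2 hmem
    refine ⟨P, hh, hQ, hmem, by rw [hperm.length_eq, hRm], ?_⟩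
    refine hL.perm (hperm.symm.append_right _) ?_ ?_
    · have h3 : P ++ z :: M = P ++ [z] ++ M := by simp
      rw [h3]
      refine List.IsChain.append_overlap (l₂ := [z]) hQ.2.1 ?_ (by simp)
      rw [List.isChain_append] at hc0
      simpa using hc0.2.1
    · have := hL.2.2.2
      simp only [List.getLast?_append] at this ⊢
      simpa [List.getLast?_cons] using this
  have hAU : ∀ a, Start G W1 z a → Start G W b a := by
    intro a ha
    obtain ⟨P, h1, -, h3, -, h5⟩ := hA a ha
    obtain ⟨P', rfl⟩ := List.head?_eq_some_iff.1 h1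
    exact HP.start (L := P' ++ z :: M) (by simpa using h5) (by simp)
  have hAR : ∀ a, Start G W1 z a → a ∈ R := by
    intro a ha
    obtain ⟨P, h1, -, h3, -, -⟩ := hA a ha
    exact (h3 a).1 (List.mem_of_head? h1)
  -- the neighbours in the tail and their predecessors
  set X : Finset V := M.toFinset.filter (fun x => ∃ a, Start G W1 z a ∧ G.Adj a x) with hX
  have hex2 : ∀ x, x ∈ M → ∃ y A B, z :: M = A ++ y :: x :: B := by
    intro x hx
    obtain ⟨s, t, hst⟩ := List.append_of_mem hx
    rcases List.eq_nil_or_concat (z :: s) with h | ⟨A, y, h⟩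
    · simp at h
    · refine ⟨y, A, t, ?_⟩
      rw [hst, ← List.cons_append, h]
      simp
  have hUpre : ∀ x ∈ X, ∀ A y B, z :: M = A ++ y :: x :: B → Start G W b y := by
    intro x hx A y B hT
    rw [hX, mem_filter] at hx
    obtain ⟨-, a, ha, hax⟩ := hx
    obtain ⟨P, h1, -, -, -, h5⟩ := hA a ha
    refine rotate (P := P) (A := A) (B := B) ?_ h1 hax
    rw [hT] at h5
    simpa using h5
  have hAz : ∀ x ∈ X, ∀ A y B, z :: M = A ++ y :: x :: B → ∃ A', A = z :: A' := by
    intro x hx A y B hT
    have h1 := hUpre x hx A y B hT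
    cases A with
    | nil => simp only [List.nil_append, List.cons.injEq] at hT; rw [← hT.1] at h1; exact absurd h1 hz
    | cons c A => simp only [List.cons_append, List.cons.injEq] at hT; exact ⟨A, by rw [hT.1]⟩
  have hins : ∀ x ∈ X, ∀ A y B, z :: M = A ++ y :: x :: B → ∀ a', Start G W1 z a' →
      ¬ G.Adj y a' := by
    intro x hx A y B hT a' ha' hadj
    obtain ⟨A', rfl⟩ := hAz x hx A y B hT
    rw [hX, mem_filter] at hx
    obtain ⟨-, a, ha, hax⟩ := hx
    obtain ⟨P, h1, -, h3, h4, h5⟩ := hA a' ha'
    obtain ⟨P1, P2, rfl⟩ := List.append_of_mem ((h3 a).2 (hAR a ha))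
    have h6 : HP G W b ((P1 ++ [a]) ++ (P2 ++ (((z :: A') ++ [y]) ++ (x :: B)))) := by
      rw [hT] at h5; simpa using h5
    have h7 := move_ins h6 (a1 := a') (a2 := a) (by
      cases P1 with
      | nil => simpa using h1
      | cons c P1 => simpa using h1) (by simp) hadj hax
    have h8 := hmin P2 z (A' ++ [y] ++ ((P1 ++ [a]) ++ (x :: B))) (fun r hr => hRU r ((h3 r).1 (by simp [hr])))
      hz (by simpa using h7)
    simp only [List.length_append, List.length_cons] at h4
    omega
  have hadj2 : ∀ x ∈ X, ∀ x' ∈ X, ∀ A y E y' B', z :: M = A ++ y :: (E ++ y' :: x' :: B') →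
      (E ++ [y']).head? = some x → ¬ G.Adj y y' := by
    intro x hx x' hx' A y E y' B' hT hE hadj
    obtain ⟨C, hC⟩ := List.head?_eq_some_iff.1 hE
    have hT2 : z :: M = A ++ y :: x :: (C ++ x' :: B') := by
      rw [hT]
      have : E ++ y' :: x' :: B' = (E ++ [y']) ++ x' :: B' := by simp
      rw [this, hC]; simp
    obtain ⟨A', rfl⟩ := hAz x hx A y _ hT2
    rw [hX, mem_filter] at hx hx'
    obtain ⟨-, a, ha, hax⟩ := hx
    obtain ⟨-, a', ha', hax'⟩ := hx'
    obtain ⟨P, h1, -, h3, h4, h5⟩ := hA a ha
    obtain ⟨P1, P2, rfl⟩ := List.append_of_mem ((h3 a').2 (hAR a' ha'))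
    have h6 : HP G W b ((P1 ++ [a']) ++ (P2 ++ (((z :: A') ++ [y]) ++ ((E ++ [y']) ++ (x' :: B'))))) := by
      rw [hT] at h5; simpa using h5
    have h7 := move_rev h6 (a1 := a) (a2 := a') (x := x) (y' := y') (by
      cases P1 with
      | nil => simpa using h1
      | cons c P1 => simpa using h1) (by simp) hE (by simp) hadj hax hax'
    have h8 := hmin P2 z (A' ++ [y] ++ ((E ++ [y']).reverse ++ ((P1 ++ [a']) ++ (x' :: B'))))
      (fun r hr => hRU r ((h3 r).1 (by simp [hr]))) hz (by simpa using h7)
    simp only [List.length_append, List.length_cons] at h4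
    omega
  choose! pre hpreA using hex2
  have hXM : ∀ x ∈ X, x ∈ M := by
    intro x hx; rw [hX, mem_filter, List.mem_toFinset] at hx; exact hx.1
  have hdup : ∀ A y E y' C, z :: M = A ++ y :: (E ++ y' :: C) → y ≠ y' := by
    intro A y E y' C h1 h2
    subst h2
    rw [h1, List.nodup_append] at hTn
    have := hTn.2.1
    rw [List.nodup_cons] at this
    exact this.1 (by simp)
  have hinj : Set.InjOn pre (X : Set V) := by
    intro x hx x' hx' hxx
    obtain ⟨A, B, h1⟩ := hpreA x (hXM x hx)
    obtain ⟨A', B', h2⟩ := hpreA x' (hXM x' hx')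
    rcases split_two h1 h2 with h | ⟨E, h, -⟩ | ⟨E, h, -⟩
    · exact h.2
    · exact absurd hxx (hdup _ _ _ _ _ h)
    · exact absurd hxx.symm (hdup _ _ _ _ _ h)
  have hnon : ∀ x ∈ X, ∀ x' ∈ X, ¬ G.Adj (pre x) (pre x') := by
    intro x hx x' hx' hadj
    obtain ⟨A, B, h1⟩ := hpreA x (hXM x hx)
    obtain ⟨A', B', h2⟩ := hpreA x' (hXM x' hx')
    rcases split_two h1 h2 with h | ⟨E, h, h'⟩ | ⟨E, h, h'⟩
    · rw [h.1] at hadj; exact G.irrefl hadj
    · exact hadj2 x hx x' hx' _ _ _ _ _ h h' hadj
    · exact hadj2 x' hx' x hx _ _ _ _ _ h h' hadj.symm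
  -- induction
  have hW1c : W1.card = m + 1 := by
    rw [hW1, card_insert_of_notMem (by simpa using hzR), List.toFinset_card_of_nodup hRn, hRm]
  have hMl : 0 < M.length := List.length_pos_of_ne_nil hMne
  obtain ⟨I0, i1, i2, i3⟩ := ih W1.card (by omega) W1 z (k - X.card) rfl
    (by
      obtain ⟨r, R', hRr⟩ : ∃ r R', R = r :: R' := by
        cases R with
        | nil => exact absurd rfl hRne
        | cons r R' => exact ⟨r, R', rfl⟩
      refine ⟨r, HP.start (L := R' ++ [z]) ?_ (by simp)⟩
      rw [hRr] at hpre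
      simpa using hpre)
    (by
      intro K hKne hKA
      have h1 := hK K hKne (fun a ha => hAU a (hKA a ha))
      have h2 : (W.filter fun v => v ∉ K ∧ ∃ u ∈ K, G.Adj u v) ⊆
          (W1.filter fun v => v ∉ K ∧ ∃ u ∈ K, G.Adj u v) ∪ X := by
        intro v hv
        rw [mem_filter] at hv
        obtain ⟨hvW, hvK, u, hu, huv⟩ := hv
        rw [mem_union, mem_filter]
        have h3 := (hL.2.2.1 v).2 hvW
        rw [List.mem_append, List.mem_cons] at h3
        rcases h3 with h | h | h
        · left; exact ⟨by simp [hW1, h], hvK, u, hu, huv⟩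
        · left; exact ⟨by simp [hW1, h], hvK, u, hu, huv⟩
        · right; rw [hX, mem_filter, List.mem_toFinset]; exact ⟨h, u, hKA u hu, huv⟩
      have h3 := card_le_card h2
      have h4 := card_union_le (W1.filter fun v => v ∉ K ∧ ∃ u ∈ K, G.Adj u v) X
      omega)
  refine ⟨I0 ∪ X.image pre, ?_, ?_, ?_⟩
  · intro a ha
    rw [mem_union, mem_image] at ha
    rcases ha with h | ⟨x, hx, rfl⟩
    · exact hAU a (i1 a h)
    · obtain ⟨A, B, h1⟩ := hpreA x (hXM x hx)
      exact hUpre x hx A _ B h1
  · intro a ha c hc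
    rw [mem_union, mem_image] at ha hc
    rcases ha with h | ⟨x, hx, rfl⟩ <;> rcases hc with h' | ⟨x', hx', rfl⟩
    · exact i2 a h c h'
    · obtain ⟨A, B, h1⟩ := hpreA x' (hXM x' hx')
      exact fun h2 => hins x' hx' A _ B h1 a (i1 a h) h2.symm
    · obtain ⟨A, B, h1⟩ := hpreA x (hXM x hx)
      exact hins x hx A _ B h1 c (i1 c h')
    · exact hnon x hx x' hx'
  · rw [card_union_of_disjoint, card_image_of_injOn hinj]
    · omega
    · rw [disjoint_left]
      intro a ha ha'
      rw [mem_image] at ha'
      obtain ⟨x, hx, rfl⟩ := ha'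
      obtain ⟨A, B, h1⟩ := hpreA x (hXM x hx)
      exact hdis _ (hAR _ (i1 _ ha)) _ (by rw [h1]; simp) rfl

/-- `G` is `k`-connected: it has more than `k` vertices, and `G - X` is connected for every set `X`
of fewer than `k` vertices. -/
def KConnected {V : Type*} [Fintype V] (G : SimpleGraph V) (k : ℕ) : Prop :=
  k < Fintype.card V ∧ ∀ X : Finset V, X.card < k → (G.induce {v | v ∉ X}).Connected

/-- `G` is traceable: it has a Hamiltonian path. -/
def Traceable {V : Type*} [DecidableEq V] (G : SimpleGraph V) : Prop :=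
  ∃ (a b : V) (p : G.Walk a b), p.IsHamiltonian

/-- Every `k`-connected nontraceable graph, `k ≥ 1`, has an independent set `S` of `k + 1` vertices
and a path which contains all vertices of `S` and all their neighbours. -/
theorem result (V : Type) [Fintype V] [DecidableEq V] (G : SimpleGraph V) (k : ℕ) (hk : 1 ≤ k)
    (hG : KConnected G k) (hT : ¬ Traceable G) :
    ∃ S : Finset V, S.card = k + 1 ∧ (∀ u ∈ S, ∀ v ∈ S, ¬ G.Adj u v) ∧
      ∃ (a b : V) (p : G.Walk a b), p.IsPath ∧
        ∀ u ∈ S, u ∈ p.support ∧ ∀ v, G.Adj u v → v ∈ p.support := by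
  classical
  -- a longest path
  have hbd : ∀ L : List V, L.Nodup → L.length ≤ Fintype.card V := fun L hL => hL.length_le_card
  obtain ⟨L, ⟨hLn, hLc⟩, hLmax⟩ : ∃ L : List V, (L.Nodup ∧ L.IsChain G.Adj) ∧
      ∀ L' : List V, L'.Nodup → L'.IsChain G.Adj → L'.length ≤ L.length := by
    set Pd : ℕ → Prop := fun m => ∃ L : List V, L.Nodup ∧ L.IsChain G.Adj ∧ L.length = m with hPd
    have h0 : Pd 0 := ⟨[], by simp, by simp, rfl⟩
    obtain ⟨L, h1, h2, h3⟩ := Nat.findGreatest_spec (P := Pd) (n := Fintype.card V) (Nat.zero_le _) h0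
    refine ⟨L, ⟨h1, h2⟩, ?_⟩
    intro L' h1' h2'
    rw [h3]
    exact Nat.le_findGreatest (hbd L' h1') ⟨L', h1', h2', rfl⟩
  have hconn : G.Connected := by
    have h := hG.2 ∅ (by rw [card_empty]; omega)
    have e : (G.induce {v : V | v ∉ (∅ : Finset V)}) ≃g G :=
      { toFun := fun v => v.1
        invFun := fun v => ⟨v, by simp⟩
        left_inv := fun v => rfl
        right_inv := fun v => rfl
        map_rel_iff' := by intro a b; rfl }
    exact e.connected_iff.1 h
  have hVn : Nonempty V := hconn.nonempty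
  -- `L` is not everything
  have hLne : L ≠ [] := by
    rintro rfl
    obtain ⟨v⟩ := hVn
    have := hLmax [v] (by simp) (by simp)
    simp at this
  obtain ⟨w0, hw0⟩ : ∃ w, w ∉ L := by
    by_contra hcon
    push Not at hcon
    apply hT
    refine ⟨_, _, SimpleGraph.Walk.ofSupport L hLne hLc, ?_⟩
    have hp : (SimpleGraph.Walk.ofSupport L hLne hLc).IsPath := by
      rw [SimpleGraph.Walk.isPath_def, SimpleGraph.Walk.support_ofSupport]; exact hLn
    rw [hp.isHamiltonian_iff]
    intro w
    rw [SimpleGraph.Walk.support_ofSupport]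
    exact hcon w
  obtain ⟨L0, b, rfl⟩ : ∃ L0 b, L = L0 ++ [b] := by
    rcases List.eq_nil_or_concat L with h | ⟨L0, b, h⟩
    · exact absurd h hLne
    · exact ⟨L0, b, by simpa using h⟩
  set W : Finset V := (L0 ++ [b]).toFinset with hW
  have hWm : ∀ v, v ∈ L0 ++ [b] ↔ v ∈ W := fun v => by rw [hW, List.mem_toFinset]
  have hHP : HP G W b (L0 ++ [b]) := ⟨hLn, hLc, hWm, by simp⟩
  have hHPlen : ∀ c M, HP G W c M → M.length = (L0 ++ [b]).length := by
    intro c M hM
    have : M.Perm (L0 ++ [b]) := (List.perm_ext_iff_of_nodup hM.1 hLn).2 fun v => by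
      rw [hM.2.2.1 v, hWm v]
    exact this.length_eq
  -- ends of longest paths have no neighbours outside `W`
  have hsatb : ∀ v, G.Adj b v → v ∈ W := by
    intro v hv
    by_contra hvW
    have hvL : v ∉ L0 ++ [b] := fun h => hvW ((hWm v).1 h)
    have h1 := hLmax ((L0 ++ [b]) ++ [v]) (by
      rw [List.nodup_append]
      refine ⟨hLn, by simp, ?_⟩
      intro x hx y hy
      rw [List.mem_singleton] at hy
      rw [hy]; rintro rfl; exact hvL hx) (by
      rw [List.isChain_append]
      refine ⟨hLc, by simp, ?_⟩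
      intro x hx y hy
      simp at hx hy
      rw [← hx, ← hy]; exact hv)
    simp at h1
  have hsatU : ∀ u, Start G W b u → ∀ v, G.Adj u v → v ∈ W := by
    rintro u ⟨hub, P, hP⟩ v hv
    by_contra hvW
    have hvL : v ∉ u :: P := fun h => hvW ((hP.2.2.1 v).1 h)
    have h1 := hLmax (v :: u :: P) (List.nodup_cons.2 ⟨hvL, hP.1⟩) (by
      rw [List.isChain_cons_cons]; exact ⟨hv.symm, hP.2.1⟩)
    have h2 := hHPlen b _ hP
    simp only [List.length_cons] at h1 h2
    omega
  -- an edge which leaves `W`
  obtain ⟨w, v0, hwW, hv0, hwv⟩ : ∃ w v, w ∈ W ∧ v ∉ W ∧ G.Adj w v := by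
    obtain ⟨p⟩ := hconn.preconnected b w0
    obtain ⟨d, -, h1, h2⟩ := p.exists_boundary_dart (W : Set V) (by
      rw [Finset.mem_coe, ← hWm]; simp) (by
      rw [Finset.mem_coe, ← hWm]; exact hw0)
    exact ⟨d.fst, d.snd, by simpa using h1, by simpa using h2, d.adj⟩
  have hbU : ∀ u, Start G W b u → ¬ G.Adj u b := by
    rintro u ⟨hub, P, hP⟩ hadj
    obtain ⟨C, D, hCD⟩ := List.append_of_mem ((hP.2.2.1 w).2 hwW)
    have hc := hP.2.1
    rw [hCD] at hc hP
    have e1 : C ++ w :: D = (C ++ [w]) ++ D := by simp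
    rw [e1] at hc
    rw [List.isChain_append] at hc
    obtain ⟨c1, c2, -⟩ := hc
    have hh : (C ++ [w]).head? = some u := by
      cases C with
      | nil => simp only [List.nil_append, List.cons.injEq] at hCD; simp [hCD.1]
      | cons c C => simp only [List.cons_append, List.cons.injEq] at hCD; simp [hCD.1]
    have hv0L : v0 ∉ C ++ w :: D := fun h => hv0 ((hP.2.2.1 v0).1 h)
    have hlast := hP.2.2.2
    have h1 := hLmax (D ++ ((C ++ [w]) ++ [v0])) (by
      have h3 : (v0 :: (C ++ w :: D)).Nodup := List.nodup_cons.2 ⟨hv0L, hP.1⟩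
      refine (List.Perm.nodup_iff ?_).1 h3
      rw [List.perm_iff_count]
      intro v
      simp only [List.count_append, List.count_cons, List.count_nil]
      omega) (by
      rw [List.isChain_append]
      refine ⟨c2, ?_, ?_⟩
      · rw [List.isChain_append]
        refine ⟨c1, by simp, ?_⟩
        intro x hx y hy
        simp at hx hy
        rw [← hx, ← hy]; exact hwv
      · intro x hx y hy
        rw [List.head?_append, hh] at hy
        simp only [Option.mem_def, Option.some.injEq, Option.some_or] at hy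
        have hx' : x = b := by
          rw [e1, List.getLast?_append] at hlast
          rw [Option.mem_def] at hx
          rw [hx] at hlast
          simpa using hlast
        rw [← hy, hx']; exact hadj.symm)
    have h2 := hHPlen b _ hP
    simp only [List.length_append, List.length_cons, List.length_nil] at h1 h2
    omega
  -- apply the core lemma
  have hstart : ∃ a, Start G W b a := by
    cases L0 with
    | nil =>
      exfalso
      have hwb : w = b := by
        have := (hWm w).2 hwW
        simpa using this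
      rw [hwb] at hwv
      exact hv0 (hsatb v0 hwv)
    | cons a L0 => exact ⟨a, HP.start (L := L0 ++ [b]) (by simpa using hHP) (by simp)⟩
  obtain ⟨I, i1, i2, i3⟩ := core G W.card W b k rfl hstart (by
    intro K hKne hKU
    by_contra hlt
    push Not at hlt
    set Y : Finset V := W.filter fun v => v ∉ K ∧ ∃ u ∈ K, G.Adj u v with hY
    have hYm : ∀ v, v ∈ Y ↔ v ∈ W ∧ v ∉ K ∧ ∃ u ∈ K, G.Adj u v := fun v => by rw [hY, mem_filter]
    have hlt' : Y.card < k := by
      refine lt_of_le_of_lt (le_of_eq ?_) hlt
      rw [hY]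
      congr
    obtain ⟨u, hu⟩ := hKne
    have hKW : ∀ x ∈ K, x ∈ W := by
      intro x hx
      obtain ⟨-, P, hP⟩ := hKU x hx
      exact (hP.2.2.1 x).1 (by simp)
    have huY : u ∉ Y := fun h => ((hYm u).1 h).2.1 hu
    have hwY : w0 ∉ Y := fun h => hw0 ((hWm w0).2 ((hYm w0).1 h).1)
    obtain ⟨p⟩ := (hG.2 Y hlt').preconnected ⟨u, huY⟩ ⟨w0, hwY⟩
    obtain ⟨d, -, h1, h2⟩ := p.exists_boundary_dart {x | x.1 ∈ K} hu
      (fun h => hw0 ((hWm w0).2 (hKW _ h)))
    have h3 : G.Adj d.fst.1 d.snd.1 := d.adj
    have h4 : d.snd.1 ∉ Y := d.snd.2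
    exact h4 ((hYm _).2 ⟨hsatU _ (hKU _ h1) _ h3, h2, _, h1, h3⟩))
  obtain ⟨J, hJI, hJc⟩ := exists_subset_card_eq i3
  have hbJ : b ∉ J := fun h => (i1 b (hJI h)).1 rfl
  refine ⟨insert b J, by rw [card_insert_of_notMem hbJ, hJc], ?_, _, _,
    SimpleGraph.Walk.ofSupport (L0 ++ [b]) hLne hLc, ?_, ?_⟩
  · intro u hu v hv
    rw [mem_insert] at hu hv
    rcases hu with rfl | hu <;> rcases hv with rfl | hv
    · exact G.irrefl
    · exact fun h => hbU v (i1 v (hJI hv)) h.symm
    · exact hbU u (i1 u (hJI hu))
    · exact i2 u (hJI hu) v (hJI hv)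
  · rw [SimpleGraph.Walk.isPath_def, SimpleGraph.Walk.support_ofSupport]; exact hLn
  · intro u hu
    rw [SimpleGraph.Walk.support_ofSupport]
    rw [mem_insert] at hu
    rcases hu with rfl | hu
    · exact ⟨by simp, fun v hv => (hWm v).2 (hsatb v hv)⟩
    · have h1 := i1 u (hJI hu)
      refine ⟨?_, fun v hv => (hWm v).2 (hsatU u h1 v hv)⟩
      obtain ⟨-, P, hP⟩ := h1
      exact (hWm u).2 ((hP.2.2.1 u).1 (by simp))

end Pool.Agent.Results.MP_05e181_co.SaturatedEnds
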